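import Pool.Agent.N906.KG.Nt
import Pool.Agent.H691R3.Rep

set_option autoImplicit false
set_option linter.unusedSectionVars false

/-!
Project KG (helper906): PRMK, large primes.
-/

namespace Pool.Agent.N595.KG

open NumberField IsDedekindDomain Finset Pool.Agent.H691R3 Pool.Agent.W223.AK Pool.Agent.N906.KG

section Tools

variable {K : Type} [Field K] [NumberField K]

lemma q_pos (v : Pr K) : 0 < Nv v := by linarith [two_le_Nv v]

/-- lower bound of the norm -/
lemma norm_lb (v : Pr K) (x : 𝓞 K) (hx : x ≠ 0) (a : ℕ)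
    (h : fv v (x : K) ≤ (Nv v) ^ (-(a : ℤ))) :
    (Nv v) ^ a ≤ ∏ w : InfinitePlace K, w (x : K) ^ w.mult := by
  have hmem : x ∈ v.asIdeal ^ a := (fv_le_pow_iff v x a).1 h
  have hle : Ideal.span {x} ≤ v.asIdeal ^ a := by rwa [Ideal.span_singleton_le_iff_mem]
  have hdvd := Ideal.absNorm_dvd_absNorm_of_le hle
  have hne : Ideal.absNorm (Ideal.span {x}) ≠ 0 := by
    rw [Ideal.absNorm_ne_zero_iff_mem_nonZeroDivisors, mem_nonZeroDivisors_iff_ne_zero]
    simpa using hx
  have h1 := Nat.le_of_dvd (Nat.pos_of_ne_zero hne) hdvd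
  rw [InfinitePlace.prod_eq_abs_norm]
  have h2 : (Ideal.absNorm (Ideal.span {x}) : ℝ) = |(Algebra.norm ℚ (x : K) : ℚ)| := by
    rw [Ideal.absNorm_span_singleton, ← Algebra.coe_norm_int, Nat.cast_natAbs]
    push_cast
    rfl
  calc (Nv v) ^ a = ((Ideal.absNorm (v.asIdeal ^ a) : ℕ) : ℝ) := by
        rw [map_pow]; push_cast; rfl
    _ ≤ (Ideal.absNorm (Ideal.span {x}) : ℝ) := by exact_mod_cast h1
    _ = _ := h2

lemma bn_pos {ρ : InfinitePlace K → ℝ} (h : ∀ w, 0 < ρ w) : 0 < bn ρ :=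
  Finset.prod_pos fun w _ => pow_pos (h w) _

lemma bn_mono {ρ σ : InfinitePlace K → ℝ} (h : ∀ w, 0 ≤ ρ w) (h' : ∀ w, ρ w ≤ σ w) :
    bn ρ ≤ bn σ :=
  Finset.prod_le_prod (fun w _ => pow_nonneg (h w) _)
    fun w _ => pow_le_pow_left₀ (h w) (h' w) _

lemma bn_smul (c : ℝ) (ρ : InfinitePlace K → ℝ) :
    bn (fun w => c * ρ w) = c ^ Module.finrank ℚ K * bn ρ := by
  unfold bn
  simp only [mul_pow]
  rw [Finset.prod_mul_distrib, Finset.prod_pow_eq_pow_sum, InfinitePlace.sum_mult_eq]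

variable {N : ℕ}

/-- the supremum over the remaining coordinates -/
lemma sup_le' (B : Fin (N + 1) → InfinitePlace K → ℝ) (e : Fin (N + 1) ≃ Fin (N + 1))
    (j : Fin N) (i : Fin (N + 1)) (hi : j.castSucc < i) (w : InfinitePlace K) :
    B (e i) w ≤ ⨆ i : {i : Fin (N + 1) // j.castSucc < i}, B (e i) w :=
  le_ciSup (f := fun i : {i : Fin (N + 1) // j.castSucc < i} => B (e i) w)
    (Set.finite_range _).bddAbove ⟨i, hi⟩

lemma sup_pos (B : Fin (N + 1) → InfinitePlace K → ℝ) (hB : ∀ k w, 0 < B k w)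
    (e : Fin (N + 1) ≃ Fin (N + 1)) (j : Fin N) (w : InfinitePlace K) :
    0 < ⨆ i : {i : Fin (N + 1) // j.castSucc < i}, B (e i) w :=
  (hB _ _).trans_le (sup_le' B e j j.succ (Fin.castSucc_lt_succ) w)

lemma Rj_pos (B : Fin (N + 1) → InfinitePlace K → ℝ) (hB : ∀ k w, 0 < B k w)
    (e : Fin (N + 1) ≃ Fin (N + 1)) (j : Fin N) : 0 < Rj B e j :=
  bn_pos fun w => lt_min (hB _ _) (sup_pos B hB e j w)

lemma Rj_le (B : Fin (N + 1) → InfinitePlace K → ℝ) (hB : ∀ k w, 0 < B k w)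
    (e : Fin (N + 1) ≃ Fin (N + 1)) (j : Fin N) : Rj B e j ≤ bn (fun w => ⨆ k, B k w) := by
  refine bn_mono (fun w => (lt_min (hB _ _) (sup_pos B hB e j w)).le) fun w => ?_
  exact (min_le_left _ _).trans
    (le_ciSup (f := fun k => B k w) (Set.finite_range _).bddAbove _)

/-- all volumes are at least `β` -/
lemma Rj_ge (h2 : S_TEL K) (hN : 1 ≤ N) (B : Fin (N + 1) → InfinitePlace K → ℝ)
    (hB : ∀ k w, 0 < B k w) (e : Fin (N + 1) ≃ Fin (N + 1)) (H β : ℝ)
    (hH : bn (fun w => ⨆ k, B k w) ≤ H) (hβ : β * H ^ (N - 1) ≤ vol B) (j : Fin N) :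
    β ≤ Rj B e j := by
  have hR := Rj_pos B hB e
  have hHpos : 0 < H := (hR j).trans_le ((Rj_le B hB e j).trans hH)
  have h1 : ∏ j, Rj B e j ≤ Rj B e j * H ^ (N - 1) := by
    rw [← Finset.mul_prod_erase univ _ (mem_univ j)]
    refine mul_le_mul_of_nonneg_left ?_ (hR j).le
    calc ∏ i ∈ univ.erase j, Rj B e i ≤ ∏ i ∈ univ.erase j, H :=
          Finset.prod_le_prod (fun i _ => (hR i).le) fun i _ => (Rj_le B hB e i).trans hH
      _ = H ^ (N - 1) := by
          rw [Finset.prod_const, Finset.card_erase_of_mem (mem_univ j), Finset.card_univ,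
            Fintype.card_fin]
  rw [(h2 N e hN).1 B hB] at h1
  exact le_of_mul_le_mul_right (hβ.trans h1) (pow_pos hHpos _)

/-- upper bound of the norm of the first coordinate -/
lemma norm_ub (B : Fin (N + 1) → InfinitePlace K → ℝ) (hB : ∀ k w, 0 < B k w)
    (e : Fin (N + 1) ≃ Fin (N + 1)) (hN : 1 ≤ N) (x : Fin (N + 1) → 𝓞 K) (hs : ∑ k, x k = 0)
    (hx : ∀ k (w : InfinitePlace K), w (x k : K) ≤ B k w) :
    ∏ w : InfinitePlace K, w (x (e 0) : K) ^ w.mult ≤
      (N : ℝ) ^ Module.finrank ℚ K * Rj B e ⟨0, hN⟩ := by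
  unfold Rj
  rw [← bn_smul]
  refine bn_mono (ρ := fun w => w (x (e 0) : K)) (fun w => apply_nonneg _ _) fun w => ?_
  have hN' : (1 : ℝ) ≤ N := by exact_mod_cast hN
  have h0 : (Fin.castSucc (⟨0, hN⟩ : Fin N)) = 0 := rfl
  have hs' : x (e 0) = - ∑ k : Fin N, x (e k.succ) := by
    rw [← Equiv.sum_comp e, Fin.sum_univ_succ] at hs
    exact eq_neg_of_add_eq_zero_left hs
  have h1 : w (x (e 0) : K) ≤
      N * ⨆ i : {i : Fin (N + 1) // (Fin.castSucc (⟨0, hN⟩ : Fin N)) < i}, B (e i) w := by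
    rw [hs']
    have : ((-∑ k : Fin N, x (e k.succ) : 𝓞 K) : K) = - ∑ k : Fin N, (x (e k.succ) : K) := by
      push_cast
      simp
    rw [this]
    have hw : w (- ∑ k : Fin N, (x (e k.succ) : K)) = w (∑ k : Fin N, (x (e k.succ) : K)) :=
      w.1.map_neg _
    rw [hw]
    calc w (∑ k : Fin N, (x (e k.succ) : K)) ≤ ∑ k : Fin N, w (x (e k.succ) : K) :=
          f_sum_le w.1 univ _
      _ ≤ ∑ k : Fin N, ⨆ i : {i : Fin (N + 1) // (Fin.castSucc (⟨0, hN⟩ : Fin N)) < i},
            B (e i) w := by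
          refine Finset.sum_le_sum fun k _ => (hx _ _).trans ?_
          exact sup_le' B e ⟨0, hN⟩ k.succ (by rw [h0]; exact Fin.succ_pos k) w
      _ = _ := by rw [Finset.sum_const, Finset.card_univ, Fintype.card_fin, nsmul_eq_mul]
  have h2 : w (x (e 0) : K) ≤ N * B (e 0) w := by
    have := hx (e 0) w
    have hb := (hB (e 0) w).le
    nlinarith
  have hNpos : (0 : ℝ) ≤ N := by linarith
  rw [mul_min_of_nonneg _ _ hNpos]
  exact le_min h2 h1

lemma lj_nonneg (D : Fin (N + 1) → Idl K) (e : Fin (N + 1) ≃ Fin (N + 1)) (j : Fin N) :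
    0 ≤ lj D e j :=
  Finset.sum_nonneg fun v _ => mul_nonneg (Nat.cast_nonneg _) (log_Nv_pos v).le

lemma lj_ge (D : Fin (N + 1) → Idl K) (e : Fin (N + 1) ≃ Fin (N + 1)) (j : Fin N) (v : Pr K) :
    (D (e j.castSucc) v : ℝ) * Real.log (Nv v) ≤ lj D e j := by
  classical
  by_cases h : D (e j.castSucc) v = 0
  · rw [h]
    simpa using lj_nonneg D e j
  · have hv : v ∈ sp D := by
      unfold sp
      rw [Finset.mem_biUnion]
      exact ⟨_, mem_univ _, Finsupp.mem_support_iff.2 h⟩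
    unfold lj
    refine le_trans ?_ (Finset.single_le_sum (f := fun v => ((max (D (e j.castSucc) v)
      (⨅ i : {i : Fin (N + 1) // j.castSucc < i}, D (e i) v) : ℕ) : ℝ) * Real.log (Nv v))
      (fun v _ => mul_nonneg (Nat.cast_nonneg _) (log_Nv_pos v).le) hv)
    refine mul_le_mul_of_nonneg_right ?_ (log_Nv_pos v).le
    exact_mod_cast le_max_left _ _

/-- there is an order with given first element -/
lemma exists_e1 (i : Fin (N + 1)) : ∃ e : Fin (N + 1) ≃ Fin (N + 1), e 0 = i :=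
  ⟨Equiv.swap 0 i, Equiv.swap_apply_left _ _⟩

/-- there is an order with given first two elements -/
lemma exists_e2 (z o i j : Fin (N + 1)) (hzo : z ≠ o) (hij : i ≠ j) :
    ∃ e : Fin (N + 1) ≃ Fin (N + 1), e z = i ∧ e o = j := by
  refine ⟨(Equiv.swap o (Equiv.swap z i j)).trans (Equiv.swap z i), ?_, ?_⟩
  · rw [Equiv.trans_apply]
    have h1 : z ≠ Equiv.swap z i j := by
      intro h
      have := congrArg (Equiv.swap z i) h
      rw [Equiv.swap_apply_left, Equiv.swap_apply_self] at this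
      exact hij this
    rw [Equiv.swap_apply_of_ne_of_ne hzo h1, Equiv.swap_apply_left]
  · rw [Equiv.trans_apply, Equiv.swap_apply_left, Equiv.swap_apply_self]

lemma cg_zero (x : Fin (N + 1) → 𝓞 K) : Cg (0 : Idl K) (0 : Fin (N + 1) → 𝓞 K) x := by
  intro k v
  have := fv_int_le_one v (x k)
  simpa using this

lemma len_zero : len (0 : Idl K) = 0 := by
  unfold len
  simp

/-- SEQ0 with `m = 0` -/
lemma seq0' (C₀ : ℝ)
    (hC : ∀ (e : Fin (N + 1) ≃ Fin (N + 1))
    (D : Fin (N + 1) → Idl K) (m : Idl K) (c : Fin (N + 1) → 𝓞 K) (B : Fin (N + 1) → InfinitePlace K → ℝ)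
    (F : Finset (Fin (N + 1) → 𝓞 K)), (∀ k w, 0 < B k w) → (∀ v, m v = 0 ∨ ∀ k, D k v = 0) →
    (∀ x ∈ F, ∑ k, x k = 0 ∧ Dv D x ∧ Cg m c x ∧ ∀ k (w : InfinitePlace K), w (x k : K) ≤ B k w) →
    (F.card : ℝ) ≤ C₀ * ∏ j, (Rj B e j * Real.exp (-lj D e j - len m) + 1))
    (e : Fin (N + 1) ≃ Fin (N + 1)) (D : Fin (N + 1) → Idl K)
    (B : Fin (N + 1) → InfinitePlace K → ℝ) (F : Finset (Fin (N + 1) → 𝓞 K))
    (hB : ∀ k w, 0 < B k w)
    (hF : ∀ x ∈ F, ∑ k, x k = 0 ∧ Dv D x ∧ ∀ k (w : InfinitePlace K), w (x k : K) ≤ B k w) :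
    (F.card : ℝ) ≤ C₀ * ∏ j, (Rj B e j * Real.exp (-lj D e j) + 1) := by
  have h := hC e D 0 0 B F hB (fun v => Or.inl rfl)
    fun x hx => ⟨(hF x hx).1, (hF x hx).2.1, cg_zero x, (hF x hx).2.2⟩
  simpa [len_zero] using h

end Tools

open Classical in
/-- PRMK: large primes -/
theorem prmk (K : Type) [Field K] [NumberField K] (h1 : S_SEQ0 K) (h2 : S_TEL K) : S_PRMK K := by
  intro N hN
  obtain ⟨M, rfl⟩ : ∃ M, N = M + 2 := ⟨N - 2, by omega⟩
  obtain ⟨C₀, hC₀, hC⟩ := h1 (M + 2) (by omega)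
  set A : ℝ := ((M + 2 : ℕ) : ℝ) ^ Module.finrank ℚ K with hA
  have hApos : 0 < A := by positivity
  refine ⟨C₀ * ((1 + A) * 2 ^ (M + 1)), by positivity, ?_⟩
  intro B H β v hB hβ1 hH hβ
  set q : ℝ := Nv v with hq
  have hq2 : 2 ≤ q := two_le_Nv v
  have hqpos : 0 < q := by linarith
  have hβpos : 0 < β := by linarith
  have hRpos : ∀ (e : Fin (M + 2 + 1) ≃ Fin (M + 2 + 1)) j, 0 < Rj B e j := fun e j => Rj_pos B hB e j
  have hRβ : ∀ (e : Fin (M + 2 + 1) ≃ Fin (M + 2 + 1)) j, β ≤ Rj B e j := fun e j =>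
    Rj_ge h2 (by omega) B hB e H β hH hβ j
  have hvol : ∀ (e : Fin (M + 2 + 1) ≃ Fin (M + 2 + 1)), ∏ j, Rj B e j = vol B := fun e =>
    (h2 (M + 2) e (by omega)).1 B hB
  have hvolpos : 0 < vol B := by
    rw [← hvol (Equiv.refl _)]
    exact Finset.prod_pos fun j _ => hRpos _ j
  -- factor bounds
  have hfac : ∀ (e : Fin (M + 2 + 1) ≃ Fin (M + 2 + 1)) (D : Fin (M + 2 + 1) → Idl K) j,
      Rj B e j * Real.exp (-lj D e j) + 1 ≤ Rj B e j * 2 := by
    intro e D j
    have h := hRβ e j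
    have h' := Real.exp_le_one_iff.2 (neg_nonpos.2 (lj_nonneg D e j))
    nlinarith [hRpos e j]
  constructor
  · intro i F hF
    rcases F.eq_empty_or_nonempty with hE | ⟨x, hx⟩
    · rw [hE]
      simp only [Finset.card_empty, Nat.cast_zero]
      positivity
    obtain ⟨e, he⟩ := exists_e1 i
    set D : Fin (M + 2 + 1) → Idl K := fun k => if k = i then Finsupp.single v 2 else 0 with hD
    have hcard := seq0' C₀ hC e D B F hB (fun y hy => by
      obtain ⟨a1, a2, a3, a4⟩ := hF y hy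
      refine ⟨a1, ?_, a4⟩
      intro k u
      by_cases hk : k = i
      · by_cases hu : u = v
        · rw [hu, hk]
          simp only [hD, if_true, Finsupp.single_eq_same]
          refine a3.trans_eq ?_
          rw [zpow_neg, inv_pow]
          norm_cast
        · simp only [hD, hk, if_true, Finsupp.single_eq_of_ne hu]
          simpa using fv_int_le_one u _
      · simp only [hD, hk, if_false]
        simpa using fv_int_le_one u _)
    obtain ⟨b1, b2, b3, b4⟩ := hF x hx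
    have hlow := norm_lb v (x i) b2 2 (by
      refine b3.trans_eq ?_
      rw [zpow_neg, inv_pow]
      norm_cast)
    have hup := norm_ub B hB e (by omega) x b1 b4
    rw [he] at hup
    have hqR := hlow.trans hup
    rw [← hq, ← hA] at hqR
    have hlj0 : 2 * Real.log q ≤ lj D e 0 := by
      have := lj_ge D e 0 v
      simp only [Fin.castSucc_zero, he, hD, if_true, Finsupp.single_eq_same] at this
      exact_mod_cast this
    have hexp : Real.exp (-lj D e 0) ≤ q⁻¹ ^ 2 := by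
      have : Real.exp (-(2 * Real.log q)) = q⁻¹ ^ 2 := by
        rw [Real.exp_neg, two_mul, Real.exp_add, Real.exp_log hqpos, inv_pow, pow_two]
      rw [← this]
      exact Real.exp_le_exp.2 (by linarith)
    have hfac0 : Rj B e 0 * Real.exp (-lj D e 0) + 1 ≤ Rj B e 0 * (q⁻¹ ^ 2 * (1 + A)) := by
      have e1 : (1 : ℝ) ≤ A * Rj B e 0 * q⁻¹ ^ 2 := by
        have hq' : q ^ 2 * q⁻¹ ^ 2 = 1 := by
          rw [← mul_pow, mul_inv_cancel₀ hqpos.ne', one_pow]
        calc (1 : ℝ) = q ^ 2 * q⁻¹ ^ 2 := hq'.symm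
          _ ≤ _ := mul_le_mul_of_nonneg_right hqR (by positivity)
      have e2 := mul_le_mul_of_nonneg_left hexp (hRpos e 0).le
      nlinarith
    have hprod : ∏ j, (Rj B e j * Real.exp (-lj D e j) + 1) ≤
        ∏ j : Fin (M + 2), Rj B e j * (if j = 0 then q⁻¹ ^ 2 * (1 + A) else 2) := by
      refine Finset.prod_le_prod (fun j _ => ?_) fun j _ => ?_
      · have := hRpos e j
        positivity
      · by_cases hj : j = 0
        · rw [if_pos hj, hj]
          exact hfac0
        · rw [if_neg hj]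
          exact hfac e D j
    have hprod2 : ∏ j : Fin (M + 2), (if j = 0 then q⁻¹ ^ 2 * (1 + A) else 2) =
        q⁻¹ ^ 2 * (1 + A) * 2 ^ (M + 1) := by
      rw [Fin.prod_univ_succ]
      simp [Fin.succ_ne_zero]
    rw [Finset.prod_mul_distrib, hvol e, hprod2] at hprod
    calc (F.card : ℝ) ≤ C₀ * ∏ j, (Rj B e j * Real.exp (-lj D e j) + 1) := hcard
      _ ≤ C₀ * (vol B * (q⁻¹ ^ 2 * (1 + A) * 2 ^ (M + 1))) :=
          mul_le_mul_of_nonneg_left hprod hC₀.le
      _ = C₀ * ((1 + A) * 2 ^ (M + 1)) * vol B * q⁻¹ ^ 2 := by ring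
  · intro i j F hij hF
    rcases F.eq_empty_or_nonempty with hE | ⟨x, hx⟩
    · rw [hE]
      simp only [Finset.card_empty, Nat.cast_zero]
      positivity
    obtain ⟨e, he, he'⟩ := exists_e2 (0 : Fin (M + 2 + 1)) 1 i j (by simp) hij
    set D : Fin (M + 2 + 1) → Idl K :=
      fun k => if k = i ∨ k = j then Finsupp.single v 1 else 0 with hD
    have hcard := seq0' C₀ hC e D B F hB (fun y hy => by
      obtain ⟨a1, a2, a3, a3', a4⟩ := hF y hy
      refine ⟨a1, ?_, a4⟩
      intro k u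
      by_cases hk : k = i ∨ k = j
      · by_cases hu : u = v
        · simp only [hD, hk, if_true, hu, Finsupp.single_eq_same]
          rcases hk with hk | hk
          · rw [hk]
            simpa using a3
          · rw [hk]
            simpa using a3'
        · simp only [hD, hk, if_true, Finsupp.single_eq_of_ne hu]
          simpa using fv_int_le_one u _
      · simp only [hD, hk, if_false]
        simpa using fv_int_le_one u _)
    obtain ⟨b1, b2, b3, b3', b4⟩ := hF x hx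
    have hlow := norm_lb v (x i) b2 1 (by simpa using b3)
    have hup := norm_ub B hB e (by omega) x b1 b4
    rw [he] at hup
    have hqR := hlow.trans hup
    rw [← hq, ← hA, pow_one] at hqR
    have hexp' : ∀ t : ℝ, Real.log q ≤ t → Real.exp (-t) ≤ q⁻¹ := by
      intro t ht
      have : Real.exp (-(Real.log q)) = q⁻¹ := by
        rw [Real.exp_neg, Real.exp_log hqpos]
      rw [← this]
      exact Real.exp_le_exp.2 (by linarith)
    have hlj0 : Real.log q ≤ lj D e 0 := by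
      have := lj_ge D e 0 v
      simp only [Fin.castSucc_zero, he, hD, true_or, if_true, Finsupp.single_eq_same] at this
      simpa using this
    have hlj1 : Real.log q ≤ lj D e 1 := by
      have := lj_ge D e 1 v
      simp only [Fin.castSucc_one, he', hD, or_true, if_true, Finsupp.single_eq_same] at this
      simpa using this
    have hfac0 : Rj B e 0 * Real.exp (-lj D e 0) + 1 ≤ Rj B e 0 * (q⁻¹ * (1 + A)) := by
      have e1 : (1 : ℝ) ≤ A * Rj B e 0 * q⁻¹ := by
        calc (1 : ℝ) = q * q⁻¹ := (mul_inv_cancel₀ hqpos.ne').symm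
          _ ≤ _ := mul_le_mul_of_nonneg_right hqR (by positivity)
      have e2 := mul_le_mul_of_nonneg_left (hexp' _ hlj0) (hRpos e 0).le
      nlinarith
    have hfac1 : Rj B e 1 * Real.exp (-lj D e 1) + 1 ≤ Rj B e 1 * (q⁻¹ + 1 / β) := by
      have e2 := mul_le_mul_of_nonneg_left (hexp' _ hlj1) (hRpos e 1).le
      have e3 : 1 ≤ Rj B e 1 * (1 / β) := by
        rw [mul_one_div, one_le_div hβpos]
        exact hRβ e 1
      linarith
    have hprod : ∏ j, (Rj B e j * Real.exp (-lj D e j) + 1) ≤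
        ∏ j : Fin (M + 2), Rj B e j *
          (if j = 0 then q⁻¹ * (1 + A) else if j = 1 then q⁻¹ + 1 / β else 2) := by
      refine Finset.prod_le_prod (fun j _ => ?_) fun j _ => ?_
      · have := hRpos e j
        positivity
      · by_cases hj : j = 0
        · rw [if_pos hj, hj]
          exact hfac0
        · rw [if_neg hj]
          by_cases hj' : j = 1
          · rw [if_pos hj', hj']
            exact hfac1
          · rw [if_neg hj']
            exact hfac e D j
    have hprod2 : ∏ j : Fin (M + 2),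
        (if j = 0 then q⁻¹ * (1 + A) else if j = 1 then q⁻¹ + 1 / β else 2) =
        q⁻¹ * (1 + A) * ((q⁻¹ + 1 / β) * 2 ^ M) := by
      rw [Fin.prod_univ_succ, Fin.prod_univ_succ]
      have a1 : ∀ k : Fin M, (k.succ.succ : Fin (M + 2)) ≠ 1 := by
        intro k h
        have := congrArg Fin.val h
        simp at this
      simp [Fin.succ_ne_zero, a1]
    rw [Finset.prod_mul_distrib, hvol e, hprod2] at hprod
    calc (F.card : ℝ) ≤ C₀ * ∏ j, (Rj B e j * Real.exp (-lj D e j) + 1) := hcard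
      _ ≤ C₀ * (vol B * (q⁻¹ * (1 + A) * ((q⁻¹ + 1 / β) * 2 ^ M))) :=
          mul_le_mul_of_nonneg_left hprod hC₀.le
      _ = C₀ * ((1 + A) * 2 ^ M) * vol B * (q⁻¹ ^ 2 + q⁻¹ / β) := by ring
      _ ≤ C₀ * ((1 + A) * 2 ^ (M + 1)) * vol B * (q⁻¹ ^ 2 + q⁻¹ / β) := by
          refine mul_le_mul_of_nonneg_right ?_ (by positivity)
          refine mul_le_mul_of_nonneg_right ?_ hvolpos.le
          refine mul_le_mul_of_nonneg_left ?_ hC₀.le
          refine mul_le_mul_of_nonneg_left ?_ (by positivity)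
          exact pow_le_pow_right₀ (by norm_num) (by omega)

end Pool.Agent.N595.KG
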