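import Pool.Agent.N347.LB.Stm

set_option autoImplicit false

/-!
Project LB (helper347), part GROW: a regular subgraph with large components by doubling.
-/

namespace Pool.Agent.N595.LBGROW

open Finset Pool.Agent.N347.LA

section Comp

variable {V : Type} [Fintype V]

open Classical in
/-- the component of `v` -/
noncomputable def comp (N : V → V → ℕ) (v : V) : Finset V :=
  univ.filter (fun u => Relation.ReflTransGen (fun x y => 0 < N x y + N y x) v u)

lemma mem_comp {N : V → V → ℕ} {u v : V} :
    u ∈ comp N v ↔ Relation.ReflTransGen (fun x y => 0 < N x y + N y x) v u := by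
  classical
  unfold comp
  simp

lemma self_mem (N : V → V → ℕ) (v : V) : v ∈ comp N v := mem_comp.2 Relation.ReflTransGen.refl

lemma comp_symm {N : V → V → ℕ} {u v : V} (h : u ∈ comp N v) : v ∈ comp N u := by
  rw [mem_comp] at h ⊢
  induction h with
  | refl => exact Relation.ReflTransGen.refl
  | tail _ hbc ih =>
    refine Relation.ReflTransGen.head ?_ ih
    show 0 < N _ _ + N _ _
    rw [add_comm]
    exact hbc

lemma comp_trans {N : V → V → ℕ} {u v w : V} (h : u ∈ comp N v) (h' : w ∈ comp N u) :
    w ∈ comp N v := by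
  rw [mem_comp] at h h' ⊢
  exact h.trans h'

lemma comp_eq {N : V → V → ℕ} {u v : V} (h : u ∈ comp N v) : comp N u = comp N v := by
  ext w
  exact ⟨fun h' => comp_trans h h', fun h' => comp_trans (comp_symm h) h'⟩

lemma comp_disj {N : V → V → ℕ} {u v : V} (h : comp N u ≠ comp N v) :
    Disjoint (comp N u) (comp N v) := by
  rw [Finset.disjoint_left]
  intro w hw hw'
  exact h ((comp_eq hw).symm.trans (comp_eq hw'))

lemma comp_mono {N N' : V → V → ℕ} (h : ∀ x y, N x y ≤ N' x y) (v : V) :
    comp N v ⊆ comp N' v := by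
  intro u hu
  rw [mem_comp] at hu ⊢
  induction hu with
  | refl => exact Relation.ReflTransGen.refl
  | @tail x y _ hxy ih =>
    refine Relation.ReflTransGen.tail ih ?_
    have h1 := h x y
    have h2 := h y x
    show 0 < N' x y + N' y x
    omega

end Comp

open Classical in
/-- the induction -/
theorem aux {V : Type} [Fintype V] (Γ : V → V → ℕ) (ρ m₀ κ : ℕ) (h1 : 1 ≤ m₀)
    (hκ : 3 ≤ κ) (hr : ∀ u, ∑ v, Γ u v = ρ) (hc : ∀ v, ∑ u, Γ u v = ρ)
    (h01 : ∀ u v, Γ u v ≤ 1) (hd : ∀ u, Γ u u = 0) (q : ℕ) (hq : 1 ≤ q) :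
    (∀ j < q, (ρ - j * m₀) / m₀ + m₀ + κ ≤ ρ - j * m₀ + 3) →
    ∃ N : V → V → ℕ, (∀ u v, N u v ≤ Γ u v) ∧ (∀ u, ∑ v, N u v = q * m₀) ∧
      (∀ v, ∑ u, N u v = q * m₀) ∧ ∀ v, min κ ((m₀ + 1) * 2 ^ (q - 1)) ≤ (comp N v).card := by
  induction q, hq using Nat.le_induction with
  | base =>
    intro hcond
    have h0 := hcond 0 (by omega)
    rw [zero_mul, Nat.sub_zero] at h0
    have hmρ : m₀ ≤ ρ := by
      generalize ρ / m₀ = D at h0
      omega
    obtain ⟨N, hN1, hN2, hN3, -⟩ := Pool.Agent.N347.LB.Stm.stage Γ ρ m₀ h1 hmρ hr hc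
      (fun v => v) (fun _ => True) (by
        intro u _
        have h2 : ∑ v ∈ univ.filter (fun v => v ≠ u), Γ u v = ρ := by
          rw [← hr u]
          refine Finset.sum_subset (Finset.filter_subset _ _) fun v _ hv => ?_
          have : v = u := by simpa using hv
          rw [this, hd]
        rw [h2]
        omega)
    refine ⟨N, hN1, by simpa using hN2, by simpa using hN3, fun v => ?_⟩
    refine (min_le_right _ _).trans ?_
    have h3 : m₀ ≤ (univ.filter (fun u => 0 < N v u)).card := by
      rw [← hN2 v, Finset.card_filter]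
      refine Finset.sum_le_sum fun u _ => ?_
      have := (hN1 v u).trans (h01 v u)
      split_ifs <;> omega
    have h4 : insert v (univ.filter (fun u => 0 < N v u)) ⊆ comp N v := by
      intro u hu
      rcases Finset.mem_insert.1 hu with rfl | hu
      · exact self_mem _ _
      · rw [mem_comp]
        refine Relation.ReflTransGen.single ?_
        have := (Finset.mem_filter.1 hu).2
        omega
    have h5 : v ∉ univ.filter (fun u => 0 < N v u) := by
      have := hN1 v v
      rw [hd] at this
      simp only [mem_filter, mem_univ, true_and]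
      omega
    have h6 := Finset.card_le_card h4
    rw [Finset.card_insert_of_notMem h5] at h6
    simp
    omega
  | succ q hq ih =>
    intro hcond
    obtain ⟨N, hN1, hN2, hN3, hN4⟩ := ih fun j hj => hcond j (by omega)
    have hcq := hcond q (by omega)
    have hρq : q * m₀ ≤ ρ ∧ m₀ ≤ ρ - q * m₀ := by
      constructor
      · by_contra hlt
        have : ρ - q * m₀ = 0 := by omega
        rw [this] at hcq
        simp at hcq
        omega
      · generalize (ρ - q * m₀) / m₀ = D at hcq
        omega
    have hr' : ∀ u, ∑ v, (Γ u v - N u v) = ρ - q * m₀ := by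
      intro u
      rw [Finset.sum_tsub_distrib _ fun v _ => hN1 u v, hr, hN2]
    have hc' : ∀ v, ∑ u, (Γ u v - N u v) = ρ - q * m₀ := by
      intro v
      rw [Finset.sum_tsub_distrib _ fun u _ => hN1 u v, hc, hN3]
    obtain ⟨N', hN'1, hN'2, hN'3, hN'4⟩ := Pool.Agent.N347.LB.Stm.stage
      (fun u v => Γ u v - N u v) (ρ - q * m₀) m₀ h1 hρq.2 hr' hc'
      (fun v => comp N v) (fun u => (comp N u).card < κ) (by
        intro u hu
        -- arcs inside the component
        have h2 : ∑ v ∈ univ.filter (fun v => ¬ comp N v ≠ comp N u), (Γ u v - N u v) ≤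
            (comp N u).card - 1 := by
          have hz : Γ u u - N u u = 0 := by rw [hd]; simp
          rw [← Finset.sum_erase (univ.filter (fun v => ¬ comp N v ≠ comp N u)) hz,
            ← Finset.card_erase_of_mem (self_mem N u)]
          calc ∑ v ∈ (univ.filter (fun v => ¬ comp N v ≠ comp N u)).erase u, (Γ u v - N u v)
              ≤ ∑ v ∈ (univ.filter (fun v => ¬ comp N v ≠ comp N u)).erase u, 1 :=
                Finset.sum_le_sum fun v _ => (Nat.sub_le _ _).trans (h01 u v)
            _ = ((univ.filter (fun v => ¬ comp N v ≠ comp N u)).erase u).card := by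
                rw [Finset.sum_const, smul_eq_mul, mul_one]
            _ ≤ _ := by
                refine Finset.card_le_card (Finset.erase_subset_erase _ fun v hv => ?_)
                have : comp N v = comp N u := by simpa using hv
                rw [← this]
                exact self_mem N v
        have h3 := Finset.sum_filter_add_sum_filter_not univ (fun v => comp N v ≠ comp N u)
          (fun v => Γ u v - N u v)
        rw [hr'] at h3
        show (ρ - q * m₀) / m₀ + m₀ ≤
          ∑ v ∈ univ.filter (fun v => comp N v ≠ comp N u), (Γ u v - N u v) + 1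
        omega)
    have hmono : ∀ x y, N x y ≤ N x y + N' x y := fun x y => Nat.le_add_right _ _
    refine ⟨fun u v => N u v + N' u v, fun u v => ?_, fun u => ?_, fun v => ?_, fun v => ?_⟩
    · have := hN1 u v
      have : N' u v ≤ Γ u v - N u v := hN'1 u v
      show N u v + N' u v ≤ Γ u v
      omega
    · rw [Finset.sum_add_distrib, hN2, hN'2]
      ring
    · rw [Finset.sum_add_distrib, hN3, hN'3]
      ring
    · have hsub := comp_mono hmono v
      by_cases hk : κ ≤ (comp (fun u v => N u v + N' u v) v).card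
      · exact (min_le_left _ _).trans hk
      push Not at hk
      refine (min_le_right _ _).trans ?_
      have hSv : (comp N v).card < κ := (Finset.card_le_card hsub).trans_lt hk
      obtain ⟨w, hw1, hw2⟩ := hN'4 v hSv
      have hwmem : w ∈ comp (fun u v => N u v + N' u v) v := by
        rw [mem_comp]
        refine Relation.ReflTransGen.single ?_
        show 0 < (N v w + N' v w) + (N w v + N' w v)
        omega
      have hsub' : comp N w ⊆ comp (fun u v => N u v + N' u v) v := by
        rw [← comp_eq hwmem]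
        exact comp_mono hmono w
      have hSw : (comp N w).card < κ := (Finset.card_le_card hsub').trans_lt hk
      have hdis := comp_disj hw1
      have h2 : (comp N w ∪ comp N v).card ≤ (comp (fun u v => N u v + N' u v) v).card :=
        Finset.card_le_card (Finset.union_subset hsub' hsub)
      rw [Finset.card_union_of_disjoint hdis] at h2
      have h3 := hN4 v
      have h4 := hN4 w
      have h5 : (m₀ + 1) * 2 ^ (q + 1 - 1) = 2 * ((m₀ + 1) * 2 ^ (q - 1)) := by
        obtain ⟨p, rfl⟩ : ∃ p, q = p + 1 := ⟨q - 1, by omega⟩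
        show (m₀ + 1) * 2 ^ (p + 1) = 2 * ((m₀ + 1) * 2 ^ p)
        ring
      rw [h5]
      generalize (m₀ + 1) * 2 ^ (q - 1) = M at *
      omega

open Classical in
/-- LB/GROW -/
theorem grow {V : Type} [Fintype V] (Γ : V → V → ℕ) (ρ m₀ q κ : ℕ) (h1 : 1 ≤ m₀) (hq : 1 ≤ q)
    (hκ : 3 ≤ κ) (hr : ∀ u, ∑ v, Γ u v = ρ) (hc : ∀ v, ∑ u, Γ u v = ρ)
    (h01 : ∀ u v, Γ u v ≤ 1) (hd : ∀ u, Γ u u = 0)
    (hcond : ∀ j < q, (ρ - j * m₀) / m₀ + m₀ + κ ≤ ρ - j * m₀ + 3) :
    ∃ N : V → V → ℕ, (∀ u v, N u v ≤ Γ u v) ∧ (∀ u, ∑ v, N u v = q * m₀) ∧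
      (∀ v, ∑ u, N u v = q * m₀) ∧ ∀ v, min κ ((m₀ + 1) * 2 ^ (q - 1)) ≤
        (univ.filter (fun u => Relation.ReflTransGen (fun x y => 0 < N x y + N y x) v u)).card := by
  exact aux Γ ρ m₀ κ h1 hκ hr hc h01 hd q hq hcond

end Pool.Agent.N595.LBGROW
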