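import Pool.Agent.N347.LB.Stm

set_option autoImplicit false

/-!
Project LB (helper347), part PACK: `t` arc-disjoint regular subgraphs with large components.
-/

namespace Pool.Agent.N595.LBPACK

open Finset Pool.Agent.N347.LA

open Classical in
/-- LB/PACK (uses `grow`) -/
theorem pack {V : Type} [Fintype V] (H : SimpleGraph V) (d m₀ q κ t : ℕ) (h1 : 1 ≤ m₀)
    (hq : 1 ≤ q) (hκ : 3 ≤ κ) (hH : ∀ v, (H.neighborSet v).ncard = d)
    (hcond : ∀ s < t * q, (d - s * m₀) / m₀ + m₀ + κ ≤ d - s * m₀ + 3)
    (h2 : κ ≤ (m₀ + 1) * 2 ^ (q - 1)) :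
    ∃ N : Fin t → V → V → ℕ, (∀ g u, ∑ v, N g u v = q * m₀) ∧ (∀ g v, ∑ u, N g u v = q * m₀) ∧
      (∀ g u v, ¬ H.Adj u v → N g u v = 0) ∧ (∀ u v, ∑ g, N g u v ≤ 1) ∧
      ∀ g v, κ ≤ (univ.filter (fun u =>
        Relation.ReflTransGen (fun x y => 0 < N g x y + N g y x) v u)).card := by
  induction t with
  | zero =>
    exact ⟨fun g => g.elim0, fun g => g.elim0, fun g => g.elim0, fun g => g.elim0,
      fun u v => by simp, fun g => g.elim0⟩
  | succ t ih =>
    obtain ⟨N, hN1, hN2, hN3, hN4, hN5⟩ := ih fun s hs =>
      hcond s (hs.trans_le (Nat.mul_le_mul_right _ (Nat.le_succ t)))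
    -- the degrees
    have hdeg : ∀ u, ∑ v, (if H.Adj u v then 1 else 0) = d := by
      intro u
      rw [← hH u, Set.ncard_eq_toFinset_card', Finset.sum_ite, Finset.sum_const_zero, add_zero,
        Finset.sum_const, smul_eq_mul, mul_one]
      congr 1
      ext v
      simp
    have hle : ∀ u v, ∑ g, N g u v ≤ if H.Adj u v then 1 else 0 := by
      intro u v
      split_ifs with h
      · exact hN4 u v
      · rw [Finset.sum_eq_zero fun g _ => hN3 g u v h]
    have hr : ∀ u, ∑ v, ((if H.Adj u v then 1 else 0) - ∑ g, N g u v) = d - t * (q * m₀) := by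
      intro u
      rw [Finset.sum_tsub_distrib _ fun v _ => hle u v, hdeg, Finset.sum_comm,
        Finset.sum_congr rfl fun g _ => hN1 g u, Finset.sum_const, Finset.card_univ,
        Fintype.card_fin, smul_eq_mul]
    have hc : ∀ v, ∑ u, ((if H.Adj u v then 1 else 0) - ∑ g, N g u v) = d - t * (q * m₀) := by
      intro v
      rw [Finset.sum_tsub_distrib _ fun u _ => hle u v, Finset.sum_comm (f := fun u g => N g u v),
        Finset.sum_congr rfl fun g _ => hN2 g v, Finset.sum_const, Finset.card_univ,
        Fintype.card_fin, smul_eq_mul]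
      congr 1
      rw [← hdeg v]
      exact Finset.sum_congr rfl fun u _ => by rw [H.adj_comm]
    obtain ⟨N', hN'1, hN'2, hN'3, hN'4⟩ := Pool.Agent.N347.LB.Stm.grow
      (fun u v => (if H.Adj u v then 1 else 0) - ∑ g, N g u v) (d - t * (q * m₀)) m₀ q κ h1 hq hκ
      hr hc (fun u v => by
        show (if H.Adj u v then 1 else 0) - ∑ g, N g u v ≤ 1
        split_ifs <;> omega) (fun u => by
        show (if H.Adj u u then 1 else 0) - ∑ g, N g u u = 0
        rw [if_neg (SimpleGraph.irrefl _), Nat.zero_sub]) (fun j hj => by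
        have h := hcond (t * q + j) (by
          rw [Nat.succ_mul]
          omega)
        have e : d - t * (q * m₀) - j * m₀ = d - (t * q + j) * m₀ := by
          rw [Nat.sub_sub]
          congr 1
          ring
        rw [e]
        exact h)
    have hN'le : ∀ u v, N' u v ≤ (if H.Adj u v then 1 else 0) - ∑ g, N g u v := hN'1
    refine ⟨Fin.snoc N N', fun g => ?_, fun g => ?_, fun g => ?_, fun u v => ?_, fun g => ?_⟩
    · induction g using Fin.lastCases with
      | last => rw [Fin.snoc_last]; exact hN'2
      | cast g => rw [Fin.snoc_castSucc]; exact hN1 g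
    · induction g using Fin.lastCases with
      | last => rw [Fin.snoc_last]; exact hN'3
      | cast g => rw [Fin.snoc_castSucc]; exact hN2 g
    · induction g using Fin.lastCases with
      | last =>
        rw [Fin.snoc_last]
        intro u v h
        have := hN'le u v
        rw [if_neg h] at this
        omega
      | cast g => rw [Fin.snoc_castSucc]; exact hN3 g
    · rw [Fin.sum_univ_castSucc]
      simp only [Fin.snoc_castSucc, Fin.snoc_last]
      have h3 := hN'le u v
      have h4 := hle u v
      split_ifs at h3 h4 <;> omega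
    · induction g using Fin.lastCases with
      | last =>
        rw [Fin.snoc_last]
        exact fun v => (le_min le_rfl h2).trans (hN'4 v)
      | cast g => rw [Fin.snoc_castSucc]; exact hN5 g

end Pool.Agent.N595.LBPACK
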