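import Mathlib
import Pool.Agent.N646.RO.Stm2

/-!
Project RQ (helper646), part BRM (helper595): the bad samples are rare if most configurations are hit.
-/

set_option autoImplicit false

namespace Pool.Agent.N595.RQ

open Finset Filter Topology
open Pool.Agent.W25.QL (Fails QProp bad_rare)
open Pool.Agent.W70.QP (Cx mem_Cx)
open Pool.Agent.N646.RO

open Classical in
/-- the fibres of the restriction to the image of an injective map -/
theorem fib {α ι : Type} [Fintype ι] [DecidableEq ι] {n : ℕ} (V : Finset α) (w : ι → Fin n)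
    (hw : Function.Injective w) (z : ι → α) (hz : ∀ i, z i ∈ V) :
    ((Fintype.piFinset (fun _ : Fin n => V)).filter (fun y => ∀ i, y (w i) = z i)).card *
      V.card ^ (Fintype.card ι) = V.card ^ n := by
  have h1 : (Fintype.piFinset (fun _ : Fin n => V)).filter (fun y => ∀ i, y (w i) = z i) =
      Fintype.piFinset (fun j : Fin n => if h : ∃ i, w i = j then {z h.choose} else V) := by
    ext y
    simp only [mem_filter, Fintype.mem_piFinset]
    constructor
    · rintro ⟨h1, h2⟩ j
      by_cases h : ∃ i, w i = j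
      · rw [dif_pos h, mem_singleton, ← h2, h.choose_spec]
      · rw [dif_neg h]; exact h1 j
    · intro h
      have h2 : ∀ i, y (w i) = z i := by
        intro i
        have h3 := h (w i)
        have h4 : ∃ i', w i' = w i := ⟨i, rfl⟩
        rw [dif_pos h4, mem_singleton] at h3
        rw [h3, hw h4.choose_spec]
      refine ⟨fun j => ?_, h2⟩
      by_cases hj : ∃ i, w i = j
      · obtain ⟨i, rfl⟩ := hj
        rw [h2]; exact hz i
      · have := h j
        rwa [dif_neg hj] at this
  have h2 : V.card ^ (Fintype.card ι) = ∏ j : Fin n, if ∃ i, w i = j then V.card else 1 := by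
    rw [Finset.prod_ite, prod_const, prod_const_one, mul_one]
    congr 1
    rw [← Finset.card_univ, ← Finset.card_image_of_injective univ hw]
    congr 1
    ext j
    simp
  rw [h1, Fintype.card_piFinset, h2, ← Finset.prod_mul_distrib]
  have h3 : ∀ j ∈ (univ : Finset (Fin n)),
      (if h : ∃ i, w i = j then {z h.choose} else V : Finset α).card *
        (if ∃ i, w i = j then V.card else 1) = V.card := by
    intro j _
    by_cases h : ∃ i, w i = j
    · rw [dif_pos h, if_pos h, card_singleton, one_mul]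
    · rw [dif_neg h, if_neg h, mul_one]
  rw [Finset.prod_congr rfl h3, prod_const, card_univ, Fintype.card_fin]

open Classical in
/-- averaging over the tuples -/
theorem pull {α ι : Type} [Fintype ι] [DecidableEq ι] {n : ℕ} (V : Finset α) (w : ι → Fin n)
    (hw : Function.Injective w) (P : (ι → α) → Prop) :
    ((Fintype.piFinset (fun _ : Fin n => V)).filter (fun x => P (fun i => x (w i)))).card *
      V.card ^ (Fintype.card ι) =
      V.card ^ n * ((Fintype.piFinset (fun _ : ι => V)).filter P).card := by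
  have h1 : ((Fintype.piFinset (fun _ : Fin n => V)).filter (fun x => P (fun i => x (w i)))).card =
      ∑ y ∈ (Fintype.piFinset (fun _ : ι => V)).filter P,
        ((Fintype.piFinset (fun _ : Fin n => V)).filter (fun x => ∀ i, x (w i) = y i)).card := by
    rw [card_eq_sum_card_fiberwise (f := fun x : Fin n → α => fun i => x (w i))
      (t := (Fintype.piFinset (fun _ : ι => V)).filter P)]
    · refine Finset.sum_congr rfl fun y hy => ?_
      congr 1
      ext x
      simp only [mem_filter, Fintype.mem_piFinset] at hy ⊢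
      constructor
      · rintro ⟨⟨h1, _⟩, h2⟩
        exact ⟨h1, fun i => congrFun h2 i⟩
      · rintro ⟨h1, h2⟩
        have h3 : (fun i => x (w i)) = y := funext h2
        exact ⟨⟨h1, by rw [h3]; exact hy.2⟩, h3⟩
    · intro x hx
      simp only [coe_filter, Fintype.mem_piFinset, Set.mem_ofPred_eq] at hx ⊢
      exact ⟨fun i => hx.1 _, hx.2⟩
  rw [h1, Finset.sum_mul]
  rw [Finset.sum_congr rfl fun y hy => fib V w hw y
    (Fintype.mem_piFinset.1 (mem_filter.1 hy).1)]
  rw [sum_const, smul_eq_mul, Nat.mul_comm]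

open Classical in
/-- the configurations which are not hit -/
def NH (lam : ℝ) {α : Type} [DecidableEq α] (Kf : ℕ → ℕ) (G : Finset α → Prop) (T' : ℕ)
    (H : Fin T' × Fin (Kf T') → α) : Prop :=
  Function.Injective H ∧
      ¬ ∃ (S : Finset (Fin T')) (c : Fin T' → Fin (Kf T')), (T' : ℝ) ≤ lam * (S.card : ℝ) ∧
        G (S.image (fun g => H (g, c g)))

/-- the bad samples -/
def BS (lam : ℝ) {α : Type} [DecidableEq α] (G : Finset α → Prop) {T : ℕ} (x : Fin T → α) : Prop :=
  Function.Injective x ∧ ∃ m, Fails lam (Cx G x) m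

open Classical in
/-- the samples inside the image of one map -/
theorem one {lam : ℝ} {T : ℕ} {Kf : ℕ → ℕ} {M n₀ n1 : ℕ} {δ : ℝ} {α : Type} [DecidableEq α]
    {G : Finset α → Prop}
    (h0 : ∀ (V : Finset α), n₀ ≤ V.card → QProp lam Kf T M V (fun _ => ()) G →
      (((Fintype.piFinset (fun _ : Fin T => V)).filter (fun x => BS lam G x)).card : ℝ) ≤
        δ * (V.card : ℝ) ^ T)
    (hn : n₀ ≤ n1) (y : Fin n1 → α) (hy : Function.Injective y)
    (hh : ∀ T' : ℕ, 1 ≤ T' → T' ≤ M → ∀ w : Fin T' × Fin (Kf T') → Fin n1,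
      Function.Injective w → ¬ NH lam Kf G T' (fun x => y (w x))) :
    (((univ : Finset (Fin T → Fin n1)).filter (fun u => Function.Injective u ∧
      BS lam G (fun i => y (u i)))).card : ℝ) ≤ δ * (n1 : ℝ) ^ T := by
  set V := univ.image y with hV
  have hVc : V.card = n1 := by
    rw [hV, card_image_of_injective _ hy, card_univ, Fintype.card_fin]
  have h1 := h0 V (by rw [hVc]; exact hn) (by
    intro T' h1 h2 H h3 h4 _
    have h5 : ∀ x : Fin T' × Fin (Kf T'), ∃ j, y j = H x.1 x.2 := by
      intro x
      have := h3 x.1 x.2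
      rw [hV, mem_image] at this
      obtain ⟨j, _, hj⟩ := this
      exact ⟨j, hj⟩
    choose w hw using h5
    have h6 : Function.Injective w := by
      intro a b hab
      apply h4
      simp only
      rw [← hw, ← hw, hab]
    have h7 := hh T' h1 h2 w h6
    unfold NH at h7
    rw [not_and, not_not] at h7
    have h8 : Function.Injective (fun x => y (w x)) := hy.comp h6
    obtain ⟨S, c, h9, h10⟩ := h7 h8
    refine ⟨S, c, h9, ?_⟩
    have h11 : (fun g => y (w (g, c g))) = fun g => H g (c g) := by
      funext g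
      exact hw (g, c g)
    rw [h11] at h10
    exact h10)
  rw [hVc] at h1
  refine le_trans ?_ h1
  have h2 : ((univ : Finset (Fin T → Fin n1)).filter (fun u => Function.Injective u ∧
      BS lam G (fun i => y (u i)))).card ≤
      ((Fintype.piFinset (fun _ : Fin T => V)).filter (fun x => BS lam G x)).card := by
    apply card_le_card_of_injOn (fun u => fun i => y (u i))
    · intro u hu
      simp only [coe_filter, mem_univ, true_and, Fintype.mem_piFinset, Set.mem_ofPred_eq] at hu ⊢
      refine ⟨fun i => ?_, hu.2⟩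
      rw [hV]
      exact mem_image_of_mem _ (mem_univ _)
    · intro u _ u' _ h
      funext i
      exact hy (congrFun h i)
  exact_mod_cast h2

open Classical in
theorem main : Pool.Agent.N646.RO.S_BRM := by
  intro lam hlam T Kf δ hδ
  obtain ⟨M, hM⟩ := bad_rare hlam T Kf (δ / 6) (by positivity)
  obtain ⟨n₀, hn₀⟩ := hM Unit
  set n1 : ℕ := max n₀ (2 * T ^ 2 + 1) with hn1
  set Sg : ℝ := ∑ T' ∈ range (M + 1), (n1 : ℝ) ^ (T' * Kf T') with hSg
  have hSg0 : 0 ≤ Sg := by positivity
  have hn1a : n₀ ≤ n1 := le_max_left _ _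
  have hn1b : 2 * T ^ 2 + 1 ≤ n1 := le_max_right _ _
  have hn1p : (0 : ℝ) < n1 := by exact_mod_cast (by omega : 0 < n1)
  refine ⟨M, ⌈6 * (n1 : ℝ) ^ 2 / δ⌉₊ + 1, δ / (6 * (Sg + 1)), by positivity, ?_⟩
  intro α _ V G hV hG hHit
  set N : ℝ := (V.card : ℝ) with hN
  have hNp : 0 < N := by
    rw [hN]; exact_mod_cast (by omega : 0 < V.card)
  have hNb : 6 * (n1 : ℝ) ^ 2 / δ ≤ N := by
    refine (Nat.le_ceil _).trans ?_
    rw [hN]
    exact_mod_cast (by omega : ⌈6 * (n1 : ℝ) ^ 2 / δ⌉₊ ≤ V.card)
  -- the injective maps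
  set U := (univ : Finset (Fin T → Fin n1)).filter (fun u => Function.Injective u) with hU
  have hUc : (n1 : ℝ) ^ T / 2 ≤ (U.card : ℝ) := by
    have h1 := Pool.Agent.H362R2.CM.card_not_injective_le T (univ : Finset (Fin n1))
    rw [card_univ, Fintype.card_fin] at h1
    have h2 : (Fintype.piFinset (fun _ : Fin T => (univ : Finset (Fin n1)))) = univ := by
      ext x; simp
    rw [h2] at h1
    have h3 : U.card + ((univ : Finset (Fin T → Fin n1)).filter
        (fun u => ¬ Function.Injective u)).card = n1 ^ T := by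
      rw [hU, Finset.card_filter_add_card_filter_not, card_univ, Fintype.card_fun, Fintype.card_fin,
        Fintype.card_fin]
    have h4 : (U.card : ℝ) + (((univ : Finset (Fin T → Fin n1)).filter
        (fun u => ¬ Function.Injective u)).card : ℝ) = (n1 : ℝ) ^ T := by exact_mod_cast h3
    have h5 : (((univ : Finset (Fin T → Fin n1)).filter
        (fun u => ¬ Function.Injective u)).card : ℝ) ≤ (n1 : ℝ) ^ T / 2 := by
      have h6 : (2 : ℝ) * T ^ 2 ≤ n1 := by exact_mod_cast (by omega : 2 * T ^ 2 ≤ n1)
      have h7 : (((univ : Finset (Fin T → Fin n1)).filter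
        (fun u => ¬ Function.Injective u)).card : ℝ) * n1 ≤ ((n1 : ℝ) ^ T / 2) * n1 := by
        refine le_trans (le_of_eq (by congr!)) (h1.trans ?_)
        have : (0 : ℝ) ≤ (n1 : ℝ) ^ T := by positivity
        nlinarith
      exact le_of_mul_le_mul_right h7 hn1p
    linarith
  set Y := Fintype.piFinset (fun _ : Fin n1 => V) with hY
  have hYc : (Y.card : ℝ) = N ^ n1 := by
    rw [hY, Fintype.card_piFinset, prod_const, card_univ, Fintype.card_fin, hN]
    push_cast
    rfl
  set Bd := (Fintype.piFinset (fun _ : Fin T => V)).filter (fun x => BS lam G x) with hBd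
  -- double counting
  set A : (Fin n1 → α) → ℕ := fun y => (U.filter (fun u => BS lam G (fun i => y (u i)))).card with hA
  have hdc : (∑ y ∈ Y, (A y : ℝ)) * N ^ T = U.card * (N ^ n1 * Bd.card) := by
    have h1 : ∑ y ∈ Y, A y = ∑ u ∈ U, (Y.filter (fun y => BS lam G (fun i => y (u i)))).card := by
      simp only [hA, card_filter]
      exact sum_comm
    have h2 : (∑ y ∈ Y, A y) * V.card ^ T = U.card * (V.card ^ n1 * Bd.card) := by
      rw [h1, sum_mul]
      rw [← smul_eq_mul (a := U.card), ← sum_const]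
      apply sum_congr rfl
      intro u hu
      have h3 := pull V u (by rw [hU, mem_filter] at hu; exact hu.2) (fun x => BS lam G x)
      rw [Fintype.card_fin] at h3
      exact h3
    rw [hN]
    exact_mod_cast h2
  -- the three parts
  set Y1 := Y.filter (fun y => ¬ Function.Injective y) with hY1
  set Y2 := Y.filter (fun y => ∃ T' : ℕ, 1 ≤ T' ∧ T' ≤ M ∧ ∃ w : Fin T' × Fin (Kf T') → Fin n1,
      Function.Injective w ∧ NH lam Kf G T' (fun x => y (w x))) with hY2
  have hY1c : (Y1.card : ℝ) ≤ δ / 6 * N ^ n1 := by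
    have h1 := Pool.Agent.H362R2.CM.card_not_injective_le n1 V
    have h2 : (Y1.card : ℝ) * N ≤ (δ / 6 * N ^ n1) * N := by
      refine le_trans (le_of_eq (by rw [hY1, hY, hN]; congr!)) (h1.trans ?_)
      rw [← hN]
      have h3 : (n1 : ℝ) ^ 2 ≤ δ / 6 * N := by
        rw [div_le_iff₀ hδ] at hNb
        linarith
      calc (n1 : ℝ) ^ 2 * N ^ n1 ≤ δ / 6 * N * N ^ n1 :=
            mul_le_mul_of_nonneg_right h3 (by positivity)
        _ = _ := by ring
    exact le_of_mul_le_mul_right h2 hNp
  have hY2c : (Y2.card : ℝ) ≤ δ / 6 * N ^ n1 := by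
    have h1 : Y2 ⊆ (range (M + 1)).biUnion (fun T' =>
        (univ : Finset (Fin T' × Fin (Kf T') → Fin n1)).biUnion (fun w =>
          Y.filter (fun y => 1 ≤ T' ∧ Function.Injective w ∧ NH lam Kf G T' (fun x => y (w x))))) := by
      intro y hy
      rw [hY2, mem_filter] at hy
      obtain ⟨hy1, T', h1, h2, w, hw, h3⟩ := hy
      rw [mem_biUnion]
      refine ⟨T', by rw [mem_range]; omega, ?_⟩
      rw [mem_biUnion]
      exact ⟨w, mem_univ _, by rw [mem_filter]; exact ⟨hy1, h1, hw, h3⟩⟩
    have h2 : ∀ T' ∈ range (M + 1), ∀ w : Fin T' × Fin (Kf T') → Fin n1,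
        ((Y.filter (fun y => 1 ≤ T' ∧ Function.Injective w ∧
          NH lam Kf G T' (fun x => y (w x)))).card : ℝ) ≤ δ / (6 * (Sg + 1)) * N ^ n1 := by
      intro T' hT' w
      by_cases h3 : 1 ≤ T' ∧ Function.Injective w
      · obtain ⟨h3, hw⟩ := h3
        have h4 := hHit T' h3 (by rw [mem_range] at hT'; omega)
        have h5 := pull V w hw (fun H => NH lam Kf G T' H)
        have h6 : Fintype.card (Fin T' × Fin (Kf T')) = T' * Kf T' := by
          rw [Fintype.card_prod, Fintype.card_fin, Fintype.card_fin]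
        rw [h6] at h5
        have h7 : (((Y.filter (fun y => 1 ≤ T' ∧ Function.Injective w ∧
          NH lam Kf G T' (fun x => y (w x)))).card : ℝ)) * N ^ (T' * Kf T') ≤
            (δ / (6 * (Sg + 1)) * N ^ n1) * N ^ (T' * Kf T') := by
          have h8 : ((Y.filter (fun y => 1 ≤ T' ∧ Function.Injective w ∧
            NH lam Kf G T' (fun x => y (w x)))).card) = ((Fintype.piFinset (fun _ : Fin n1 => V)).filter
              (fun y => NH lam Kf G T' (fun x => y (w x)))).card := by
            congr 1
            rw [hY]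
            apply filter_congr
            intro y _
            simp only [h3, hw, true_and]
          rw [h8]
          have h9 : ((((Fintype.piFinset (fun _ : Fin n1 => V)).filter
              (fun y => NH lam Kf G T' (fun x => y (w x)))).card : ℝ)) * N ^ (T' * Kf T') =
              N ^ n1 * ((((Fintype.piFinset (fun _ : Fin T' × Fin (Kf T') => V)).filter
                (fun H => NH lam Kf G T' H)).card : ℝ)) := by
            rw [hN]
            exact_mod_cast h5
          rw [h9]
          have h10 : ((((Fintype.piFinset (fun _ : Fin T' × Fin (Kf T') => V)).filter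
                (fun H => NH lam Kf G T' H)).card : ℝ)) ≤
                δ / (6 * (Sg + 1)) * N ^ (T' * Kf T') := by
            refine le_trans (le_of_eq ?_) h4
            unfold NH
            congr!
          calc _ ≤ N ^ n1 * (δ / (6 * (Sg + 1)) * N ^ (T' * Kf T')) :=
                mul_le_mul_of_nonneg_left h10 (by positivity)
            _ = _ := by ring
        exact le_of_mul_le_mul_right h7 (by positivity)
      · have h4 : Y.filter (fun y => 1 ≤ T' ∧ Function.Injective w ∧
          NH lam Kf G T' (fun x => y (w x))) = ∅ := by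
          rw [filter_eq_empty_iff]
          intro y _ h5
          exact h3 ⟨h5.1, h5.2.1⟩
        rw [h4, card_empty]
        simp only [Nat.cast_zero]
        positivity
    have h3 : (Y2.card : ℝ) ≤ ∑ T' ∈ range (M + 1), ∑ w : Fin T' × Fin (Kf T') → Fin n1,
        ((Y.filter (fun y => 1 ≤ T' ∧ Function.Injective w ∧
          NH lam Kf G T' (fun x => y (w x)))).card : ℝ) := by
      have h4 : Y2.card ≤ ∑ T' ∈ range (M + 1), ∑ w : Fin T' × Fin (Kf T') → Fin n1,
        (Y.filter (fun y => 1 ≤ T' ∧ Function.Injective w ∧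
          NH lam Kf G T' (fun x => y (w x)))).card := by
        refine (card_le_card h1).trans (card_biUnion_le.trans ?_)
        exact sum_le_sum fun T' _ => card_biUnion_le
      exact_mod_cast h4
    refine h3.trans ?_
    calc _ ≤ ∑ T' ∈ range (M + 1), ∑ w : Fin T' × Fin (Kf T') → Fin n1,
          δ / (6 * (Sg + 1)) * N ^ n1 :=
          sum_le_sum fun T' hT' => sum_le_sum fun w _ => h2 T' hT' w
      _ = Sg * (δ / (6 * (Sg + 1)) * N ^ n1) := by
          rw [hSg, sum_mul]
          apply sum_congr rfl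
          intro T' _
          rw [sum_const, card_univ, Fintype.card_fun, Fintype.card_prod, Fintype.card_fin,
            Fintype.card_fin, Fintype.card_fin, nsmul_eq_mul]
          push_cast
          rfl
      _ = (Sg / (Sg + 1)) * (δ / 6 * N ^ n1) := by
          field_simp
      _ ≤ 1 * (δ / 6 * N ^ n1) := by
          apply mul_le_mul_of_nonneg_right _ (by positivity)
          rw [div_le_one (by positivity)]
          linarith
      _ = _ := one_mul _
  have hAle : ∀ y, (A y : ℝ) ≤ (n1 : ℝ) ^ T := by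
    intro y
    have h1 : A y ≤ n1 ^ T := by
      simp only [hA]
      refine (card_filter_le _ _).trans ((card_filter_le _ _).trans ?_)
      rw [card_univ, Fintype.card_fun, Fintype.card_fin, Fintype.card_fin]
    exact_mod_cast h1
  have hh0 : ∀ (V : Finset α), n₀ ≤ V.card → QProp lam Kf T M V (fun _ => ()) G →
      (((Fintype.piFinset (fun _ : Fin T => V)).filter (fun x => BS lam G x)).card : ℝ) ≤
        δ / 6 * (V.card : ℝ) ^ T := by
    intro V' hV' hQ
    refine le_trans (le_of_eq ?_) (hn₀ α V' (fun _ => ()) G hV' hG hQ)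
    unfold BS
    congr!
  have hA3 : ∀ y ∈ Y, y ∉ Y1 → y ∉ Y2 → (A y : ℝ) ≤ δ / 6 * (n1 : ℝ) ^ T := by
    intro y hy h1 h2
    rw [hY1, mem_filter, not_and, not_not] at h1
    rw [hY2, mem_filter, not_and] at h2
    have h3 := h2 hy
    push Not at h3
    have h4 := one (lam := lam) (T := T) (Kf := Kf) (M := M) (n₀ := n₀) (n1 := n1) (δ := δ / 6)
      hh0 hn1a y (h1 hy)
      (fun T' h5 h6 w hw => h3 T' h5 h6 w hw)
    refine le_trans (le_of_eq ?_) h4
    simp only [hA, hU, filter_filter]
  have hsum : (∑ y ∈ Y, (A y : ℝ)) ≤ δ / 2 * (n1 : ℝ) ^ T * N ^ n1 := by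
    have h1 : ∀ y ∈ Y, (A y : ℝ) ≤ (if y ∈ Y1 then (n1 : ℝ) ^ T else 0) +
        (if y ∈ Y2 then (n1 : ℝ) ^ T else 0) + δ / 6 * (n1 : ℝ) ^ T := by
      intro y hy
      have h0 : (0 : ℝ) ≤ δ / 6 * (n1 : ℝ) ^ T := by positivity
      have h0' : (0 : ℝ) ≤ (n1 : ℝ) ^ T := by positivity
      have h2 := hAle y
      by_cases ha : y ∈ Y1
      · by_cases hb : y ∈ Y2
        · rw [if_pos ha, if_pos hb]; linarith
        · rw [if_pos ha, if_neg hb]; linarith
      · by_cases hb : y ∈ Y2
        · rw [if_neg ha, if_pos hb]; linarith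
        · rw [if_neg ha, if_neg hb]
          have := hA3 y hy ha hb
          linarith
    refine (sum_le_sum h1).trans ?_
    rw [sum_add_distrib, sum_add_distrib, sum_const, ← sum_filter, ← sum_filter, sum_const, sum_const,
      nsmul_eq_mul, nsmul_eq_mul, nsmul_eq_mul, hYc]
    have h2 : Y.filter (fun y => y ∈ Y1) = Y1 := by
      rw [filter_mem_eq_inter]
      exact inter_eq_right.2 (filter_subset _ _)
    have h3 : Y.filter (fun y => y ∈ Y2) = Y2 := by
      rw [filter_mem_eq_inter]
      exact inter_eq_right.2 (filter_subset _ _)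
    rw [h2, h3]
    have h4 : (0 : ℝ) ≤ (n1 : ℝ) ^ T := by positivity
    have h5 := mul_le_mul_of_nonneg_right hY1c h4
    have h6 := mul_le_mul_of_nonneg_right hY2c h4
    calc _ ≤ δ / 6 * N ^ n1 * (n1 : ℝ) ^ T + δ / 6 * N ^ n1 * (n1 : ℝ) ^ T +
          N ^ n1 * (δ / 6 * (n1 : ℝ) ^ T) := add_le_add (add_le_add h5 h6) le_rfl
      _ = _ := by ring
  -- conclusion
  have hfin : (Bd.card : ℝ) ≤ δ * N ^ T := by
    have h1 : (U.card : ℝ) * (N ^ n1 * Bd.card) ≤ δ / 2 * (n1 : ℝ) ^ T * N ^ n1 * N ^ T := by
      rw [← hdc]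
      exact mul_le_mul_of_nonneg_right hsum (by positivity)
    have h2 : (n1 : ℝ) ^ T / 2 * (N ^ n1 * Bd.card) ≤ U.card * (N ^ n1 * Bd.card) :=
      mul_le_mul_of_nonneg_right hUc (by positivity)
    have h3 : ((n1 : ℝ) ^ T / 2 * N ^ n1) * Bd.card ≤ ((n1 : ℝ) ^ T / 2 * N ^ n1) * (δ * N ^ T) := by
      calc _ = (n1 : ℝ) ^ T / 2 * (N ^ n1 * Bd.card) := by ring
        _ ≤ _ := h2.trans h1
        _ = _ := by ring
    exact le_of_mul_le_mul_left h3 (by positivity)
  refine le_trans (le_of_eq ?_) hfin
  rw [hBd]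
  unfold BS
  congr!

end Pool.Agent.N595.RQ
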